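import Mathlib

-- part MP_36375e_gt.Cond
section

/-!
Left condensation points for a map into a second countable space, and finite dependence
(up to a small error) of continuous functions on compact sets of functions.
-/

set_option autoImplicit false

open Filter Topology Set

namespace Pool.Agent.MP_36375e_gt

section cond

variable {α : Type*} [LinearOrder α] [TopologicalSpace α] [OrderTopology α]
  [SecondCountableTopology α]

lemma countable_not_left_cond (S : Set α) :
    {t | t ∈ S ∧ ∃ W ∈ 𝓝[<] t, (S ∩ W).Countable}.Countable := by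
  let C : Set α := {u | ∃ W ∈ 𝓝 u, (S ∩ W).Countable}
  have hC : (S ∩ C).Countable := by
    have hL : IsLindelof (S ∩ C) := HereditarilyLindelofSpace.isLindelof _
    refine hL.induction_on (p := fun s => s.Countable) (fun s t hst ht => ht.mono hst)
      (fun T hT hT' => hT.sUnion hT') ?_
    rintro x ⟨-, W, hW, hc⟩
    refine ⟨S ∩ W, ?_, hc⟩
    filter_upwards [self_mem_nhdsWithin, nhdsWithin_le_nhds hW] with y hy hy'
    exact ⟨hy.1, hy'⟩
  have h2 := countable_setOfPred_isolated_left_within (s := S \ C)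
  refine (hC.union h2).mono ?_
  rintro t ⟨htS, W, hW, hc⟩
  by_cases htC : t ∈ C
  · exact Or.inl ⟨htS, htC⟩
  refine Or.inr ⟨⟨htS, htC⟩, ?_⟩
  obtain ⟨V, hVo, htV, hV⟩ := mem_nhdsWithin.1 hW
  rw [← empty_mem_iff_bot, mem_nhdsWithin]
  refine ⟨V, hVo, htV, ?_⟩
  rintro u ⟨huV, ⟨huS, huC⟩, hut⟩
  apply huC
  refine ⟨V ∩ Iio t, (hVo.inter isOpen_Iio).mem_nhds ⟨huV, hut⟩, hc.mono ?_⟩
  exact inter_subset_inter_right _ hV

lemma countable_not_cond {D : Type*} [TopologicalSpace D] [SecondCountableTopology D]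
    (d : α → D) :
    {t | ¬ (comap d (𝓝 (d t)) ⊓ 𝓝[<] t ⊓ cocountable).NeBot}.Countable := by
  have h := (TopologicalSpace.countable_countableBasis D).biUnion
    (fun B _ => countable_not_left_cond (d ⁻¹' B))
  refine h.mono ?_
  intro t ht
  simp only [mem_ofPred_eq, not_neBot] at ht
  rw [← empty_mem_iff_bot] at ht
  obtain ⟨X, hX, Z, hZ, hXZ⟩ := mem_inf_iff.1 ht
  obtain ⟨X1, hX1, W, hW, rfl⟩ := mem_inf_iff.1 hX
  obtain ⟨U, hU, hUX⟩ := mem_comap.1 hX1
  obtain ⟨B, hB, hdB, hBU⟩ := (TopologicalSpace.isBasis_countableBasis D).mem_nhds_iff.1 hU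
  simp only [mem_iUnion]
  refine ⟨B, hB, hdB, W, hW, (mem_cocountable.1 hZ).mono ?_⟩
  rintro u ⟨hu1, hu2⟩ huZ
  have : u ∈ (∅ : Set α) := hXZ ▸ ⟨⟨hUX (hBU hu1), hu2⟩, huZ⟩
  exact this

end cond

/-- A continuous function on a compact set of functions depends, up to a small error, on
finitely many coordinates. -/
lemma exists_finset_insens {ι β : Type*} [TopologicalSpace β] [T2Space β] {M : Set (ι → β)}
    (hM : IsCompact M) {φ : (ι → β) → ℝ} (hφ : ContinuousOn φ M) {η : ℝ} (hη : 0 < η) :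
    ∃ E : Finset ι, ∀ f ∈ M, ∀ g ∈ M, (∀ u ∈ E, f u = g u) → |φ f - φ g| < η := by
  have hMM : IsCompact (M ×ˢ M) := hM.prod hM
  have hc : ContinuousOn (fun p : (ι → β) × (ι → β) => |φ p.1 - φ p.2|) (M ×ˢ M) :=
    ((hφ.comp continuousOn_fst fun p hp => hp.1).sub
      (hφ.comp continuousOn_snd fun p hp => hp.2)).abs
  have hK : IsCompact ((M ×ˢ M) ∩ (fun p : (ι → β) × (ι → β) => |φ p.1 - φ p.2|) ⁻¹' Ici η) :=
    hMM.of_isClosed_subset (hc.preimage_isClosed_of_isClosed hMM.isClosed isClosed_Ici)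
      inter_subset_left
  obtain ⟨E, hE⟩ := hK.elim_finite_subfamily_closed
    (fun u : ι => {p : (ι → β) × (ι → β) | p.1 u = p.2 u})
    (fun u => isClosed_eq (by fun_prop) (by fun_prop)) (by
      rw [eq_empty_iff_forall_notMem]
      rintro ⟨f, g⟩ ⟨⟨-, h1⟩, h2⟩
      have : f = g := funext fun u => mem_iInter.1 h2 u
      subst this
      simp only [mem_preimage, sub_self, abs_zero, mem_Ici] at h1
      linarith)
  refine ⟨E, fun f hf g hg h => ?_⟩
  by_contra hlt
  have : (f, g) ∈ (∅ : Set ((ι → β) × (ι → β))) := by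
    rw [← hE]
    refine ⟨⟨⟨hf, hg⟩, not_lt.1 hlt⟩, ?_⟩
    simp only [mem_iInter]
    exact h
  exact this

end Pool.Agent.MP_36375e_gt

end

-- part MP_36375e_gt.Good
section

/-!
Generic points and the comparison lemmas.
-/

set_option autoImplicit false
set_option linter.unusedSimpArgs false
set_option linter.unusedSectionVars false

open Filter Topology Set unitInterval Function

namespace Pool.Agent.MP_36375e_gt

/-- Monotone self-maps of the unit interval. -/
def Mon : Set (I → I) := {f | Monotone f}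

lemma isCompact_Mon : IsCompact Mon := by
  apply IsClosed.isCompact
  have : Mon = ⋂ (a : I) (b : I) (_ : a ≤ b), {f : I → I | f a ≤ f b} := by
    ext f
    simp only [Mon, mem_ofPred_eq, mem_iInter]
    exact ⟨fun h a b hab => h hab, fun h a b hab => h a b hab⟩
  rw [this]
  exact isClosed_iInter fun a => isClosed_iInter fun b => isClosed_iInter fun _ =>
    isClosed_le (continuous_apply a) (continuous_apply b)

/-- A step of height v at the point t. -/
noncomputable def step (t v : I) : I → I := fun u => if t ≤ u then v else ⊥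

lemma step_of_le {t v u : I} (h : t ≤ u) : step t v u = v := if_pos h

lemma step_of_lt {t v u : I} (h : u < t) : step t v u = ⊥ := if_neg (not_le.2 h)

lemma step_le (t v u : I) : step t v u ≤ v := by
  unfold step
  split_ifs
  · exact le_rfl
  · exact bot_le

lemma step_mem (t v : I) : step t v ∈ Mon := by
  intro a b hab
  by_cases h : t ≤ a
  · rw [step_of_le h, step_of_le (h.trans hab)]
  · rw [step_of_lt (not_le.1 h)]
    exact bot_le

lemma sup_mem {f g : I → I} (hf : f ∈ Mon) (hg : g ∈ Mon) : f ⊔ g ∈ Mon :=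
  Monotone.sup hf hg

lemma bot_mem : (⊥ : I → I) ∈ Mon := monotone_const

lemma update_mem {g : I → I} (hg : g ∈ Mon) (t v s : I) (h1 : g t ≤ s)
    (h2 : s ≤ (step t v ⊔ g) t) : update (step t v ⊔ g) t s ∈ Mon := by
  have hm : Monotone (step t v ⊔ g) := sup_mem (step_mem t v) hg
  intro a b hab
  by_cases ha : a = t
  · subst ha
    by_cases hb : b = a
    · rw [hb]
    · rw [update_self, update_of_ne hb]
      exact h2.trans (hm hab)
  · by_cases hb : b = t
    · subst hb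
      rw [update_self, update_of_ne ha, Pi.sup_apply, step_of_lt (lt_of_le_of_ne hab ha), bot_sup_eq]
      exact (hg hab).trans h1
    · rw [update_of_ne ha, update_of_ne hb]
      exact hm hab

/-- The data of the construction. -/
structure Ctx (P : Type*) where
  φ : I → (I → I) → ℝ
  ξ : I → P
  cont : ∀ t, ContinuousOn (φ t) Mon
  E : I → ℕ → Finset I
  hE : ∀ t k, ∀ f ∈ Mon, ∀ g ∈ Mon, (∀ u ∈ E t k, f u = g u) → |φ t f - φ t g| < 1 / ((k:ℝ) + 1)
  R : Set I
  Rd : Dense R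
  Rtop : ⊤ ∈ R
  Q : Set (I → I)
  Qc : Q.Countable
  QM : Q ⊆ Mon
  Qbot : ⊥ ∈ Q
  Qstep : ∀ q ∈ Q, ∀ r ∈ R, ∀ v ∈ R, step r v ⊔ q ∈ Q

variable {P : Type*} [TopologicalSpace P] (c : Ctx P)

/-- The filter F approaches t from the left through generic points. -/
structure Good (t : I) (F : Filter I) : Prop where
  ne : F.NeBot
  left : F ≤ 𝓝[<] t
  coc : ∀ Z : Set I, Z.Countable → ∀ᶠ u in F, u ∉ Z
  xi : Tendsto c.ξ F (𝓝 (c.ξ t))
  loc : ∀ k τ, (τ ∈ c.E t k → τ = t) → ∃ W ∈ 𝓝 τ, (∀ e ∈ c.E t k, e ∈ W → e = t) ∧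
    ∀ᶠ u in F, ∀ e ∈ c.E u k, e ∈ W → e = u

/-- Convergence of the values at g along F. -/
def Conv (t : I) (F : Filter I) (g : I → I) : Prop :=
  Tendsto (fun u => c.φ u g) F (𝓝 (c.φ t g))

/-- Convergence for all rational modifications of g. -/
def Rob (t : I) (F : Filter I) (g : I → I) : Prop := ∀ q ∈ c.Q, Conv c t F (q ⊔ g)

lemma generic [SecondCountableTopology P] (g : I → I) :
    {t | ¬ ∃ F, Good c t F ∧ Rob c t F g}.Countable := by
  have := c.Qc.to_subtype
  let d : I → P × ((ℕ × TopologicalSpace.countableBasis I) → Prop) × (c.Q → ℝ) := fun t =>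
    (c.ξ t, fun p => ∀ e ∈ c.E t p.1, e ∈ (p.2 : Set I) → e = t, fun q => c.φ t (q.1 ⊔ g))
  refine (countable_not_cond d).mono ?_
  intro t ht hne
  apply ht
  have hd : Tendsto d (comap d (𝓝 (d t)) ⊓ 𝓝[<] t ⊓ cocountable) (𝓝 (d t)) :=
    tendsto_comap.mono_left (inf_le_left.trans inf_le_left)
  refine ⟨_, ⟨hne, inf_le_left.trans inf_le_right, ?_, ?_, ?_⟩, ?_⟩
  · intro Z hZ
    apply inf_le_right (a := comap d (𝓝 (d t)) ⊓ 𝓝[<] t)
    rw [mem_cocountable]
    refine hZ.mono fun x hx => ?_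
    by_contra h
    exact hx h
  · exact (continuous_fst.tendsto _).comp hd
  · intro k τ hτ
    have hfin : ((c.E t k : Set I) \ {t}).Finite := (c.E t k).finite_toSet.subset sdiff_subset
    have h1 : ((c.E t k : Set I) \ {t})ᶜ ∈ 𝓝 τ := by
      refine hfin.isClosed.isOpen_compl.mem_nhds ?_
      rintro ⟨h2, h3⟩
      exact h3 (hτ h2)
    obtain ⟨B, hB, hτB, hBs⟩ := (TopologicalSpace.isBasis_countableBasis I).mem_nhds_iff.1 h1
    have h2 : ∀ e ∈ c.E t k, e ∈ B → e = t := by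
      intro e he heB
      by_contra hne'
      exact hBs heB ⟨he, hne'⟩
    refine ⟨B, (TopologicalSpace.isOpen_of_mem_countableBasis hB).mem_nhds hτB, h2, ?_⟩
    have h3 : Continuous (fun x : P × ((ℕ × TopologicalSpace.countableBasis I) → Prop) × (c.Q → ℝ) =>
        x.2.1 (k, ⟨B, hB⟩)) := by fun_prop
    have h4 := (h3.tendsto _).comp hd
    have h5 : (d t).2.1 (k, ⟨B, hB⟩) = True := eq_true h2
    rw [h5, tendsto_nhds_true] at h4
    exact h4
  · intro q hq
    have h3 : Continuous (fun x : P × ((ℕ × TopologicalSpace.countableBasis I) → Prop) × (c.Q → ℝ) =>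
        x.2.2 ⟨q, hq⟩) := by fun_prop
    exact (h3.tendsto _).comp hd

variable {c}

lemma compare {t : I} {F : Filter I} (hg : Good c t F) {G : I → I → I} {G0 : I → I}
    (hG : ∀ u, G u ∈ Mon) (hG0 : G0 ∈ Mon) (τ : I) (hτ : ∀ k, τ ∈ c.E t k → τ = t)
    (h : ∀ W ∈ 𝓝 τ, ∃ g ∈ Mon, Conv c t F g ∧ (∀ w, (w ∈ W → w = t) → g w = G0 w) ∧
      ∀ᶠ u in F, ∀ w, (w ∈ W → w = u) → g w = G u w) :
    Tendsto (fun u => c.φ u (G u)) F (𝓝 (c.φ t G0)) := by
  rw [Metric.tendsto_nhds]
  intro η hη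
  obtain ⟨k, hk⟩ := exists_nat_one_div_lt (show 0 < η / 3 by positivity)
  obtain ⟨W, hW, h1, h2⟩ := hg.loc k τ (hτ k)
  obtain ⟨g, hgM, hconv, h3, h4⟩ := h W hW
  have h5 := Metric.tendsto_nhds.1 hconv (η / 3) (by positivity)
  filter_upwards [h2, h4, h5] with u hu2 hu4 hu5
  have e1 := c.hE t k g hgM G0 hG0 fun e he => h3 e (h1 e he)
  have e2 := c.hE u k g hgM (G u) (hG u) fun e he => hu4 e (hu2 e he)
  rw [Real.dist_eq] at hu5 ⊢
  rw [abs_lt] at e1 e2 hu5 ⊢
  constructor <;> linarith [e1.1, e1.2, e2.1, e2.2, hu5.1, hu5.2]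

lemma exists_right {τ : I} (hτ : τ < ⊤) {W : Set I} (hW : W ∈ 𝓝 τ) :
    ∃ ρ ∈ c.R, τ < ρ ∧ Icc τ ρ ⊆ W := by
  obtain ⟨u, hu, hs⟩ := exists_Ico_subset_of_mem_nhds hW ⟨⊤, hτ⟩
  obtain ⟨ρ, hρ, h1, h2⟩ := c.Rd.exists_between hu
  exact ⟨ρ, hρ, h1, fun w hw => hs ⟨hw.1, hw.2.trans_lt h2⟩⟩

lemma exists_left {τ : I} (hτ : ∃ l, l < τ) {W : Set I} (hW : W ∈ 𝓝 τ) :
    ∃ ρ ∈ c.R, ρ < τ ∧ Icc ρ τ ⊆ W := by
  obtain ⟨u, hu, hs⟩ := exists_Ioc_subset_of_mem_nhds hW hτ
  obtain ⟨ρ, hρ, h1, h2⟩ := c.Rd.exists_between hu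
  exact ⟨ρ, hρ, h2, fun w hw => hs ⟨h1.trans_le hw.1, hw.2⟩⟩

lemma step_eq_of_notMem {τ ρ : I} (h : τ ≤ ρ) (s w : I) (hw : w ∉ Icc τ ρ) :
    step ρ s w = step τ s w := by
  rcases lt_or_ge w τ with h1 | h1
  · rw [step_of_lt h1, step_of_lt (h1.trans_le h)]
  · have h2 : ρ < w := by
      by_contra h3
      exact hw ⟨h1, not_lt.1 h3⟩
    rw [step_of_le h1, step_of_le h2.le]

lemma rob_step {t : I} {F : Filter I} (hg : Good c t F) {g : I → I} (hgM : g ∈ Mon)
    (hr : Rob c t F g) {τ s : I} (h1 : τ ≠ t) (h2 : τ < ⊤) (h3 : ∀ k, τ ∉ c.E t k)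
    (hs : s ∈ c.R) : Rob c t F (step τ s ⊔ g) := by
  intro q hq
  have hM : q ⊔ (step τ s ⊔ g) ∈ Mon := sup_mem (c.QM hq) (sup_mem (step_mem _ _) hgM)
  refine compare hg (G := fun _ => q ⊔ (step τ s ⊔ g)) (fun _ => hM) hM τ
    (fun k hk => (h3 k hk).elim) ?_
  intro W hW
  obtain ⟨ρ, hρ, hτρ, hsub⟩ := exists_right (c := c) h2
    (inter_mem hW (isOpen_compl_singleton.mem_nhds h1))
  have ht : t ∉ Icc τ ρ := fun h => (hsub h).2 rfl
  have key : ∀ w, w ∉ Icc τ ρ → ((step ρ s ⊔ q) ⊔ g) w = (q ⊔ (step τ s ⊔ g)) w := by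
    intro w hw
    simp only [Pi.sup_apply]
    rw [step_eq_of_notMem hτρ.le s w hw, sup_comm (step τ s w), sup_assoc]
  refine ⟨(step ρ s ⊔ q) ⊔ g, sup_mem (sup_mem (step_mem _ _) (c.QM hq)) hgM,
    hr _ (c.Qstep q hq ρ hρ s hs), ?_, ?_⟩
  · intro w hw
    refine key w fun h => ht ?_
    rw [← hw (hsub h).1]
    exact h
  · have h4 : ∀ᶠ u in F, u ∉ Icc τ ρ :=
      (hg.left.trans nhdsWithin_le_nhds) (isClosed_Icc.isOpen_compl.mem_nhds ht)
    filter_upwards [h4] with u hu w hw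
    refine key w fun h => hu ?_
    rw [← hw (hsub h).1]
    exact h

lemma Good.exists_lt {t : I} {F : Filter I} (hg : Good c t F) : ∃ l, l < t := by
  have := hg.ne
  have h : ∀ᶠ u in F, u < t := hg.left self_mem_nhdsWithin
  exact h.exists

lemma tendsto_new {t : I} {F : Filter I} (hg : Good c t F) {g : I → I} (hgM : g ∈ Mon)
    (hr : Rob c t F g) (ht : t < ⊤) {v s : I} (hv : v ∈ c.R) (hs : s ∈ c.R)
    (h1 : g t ≤ s) (h2 : s ≤ v) :
    Tendsto (fun u => c.φ u (step u s ⊔ (step t v ⊔ g))) F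
      (𝓝 (c.φ t (update (step t v ⊔ g) t s))) := by
  have hh : step t v ⊔ g ∈ Mon := sup_mem (step_mem _ _) hgM
  refine compare hg (G := fun u => step u s ⊔ (step t v ⊔ g))
    (fun u => sup_mem (step_mem _ _) hh)
    (update_mem hgM t v s h1 (h2.trans (by
      rw [Pi.sup_apply, step_of_le le_rfl]; exact le_sup_left))) t (fun _ _ => rfl) ?_
  intro W hW
  obtain ⟨b, hb, htb, hsb⟩ := exists_right (c := c) ht hW
  obtain ⟨a, ha, hat, hsa⟩ := exists_left (c := c) hg.exists_lt hW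
  have hq : step a s ⊔ (step b v ⊔ ⊥) ∈ c.Q := c.Qstep _ (c.Qstep _ c.Qbot b hb v hv) a ha s hs
  have hout : ∀ w, w ∉ W → w < a ∨ b < w := by
    intro w hw
    by_contra hcon
    rw [not_or, not_lt, not_lt] at hcon
    rcases le_total w t with h | h
    · exact hw (hsa ⟨hcon.1, h⟩)
    · exact hw (hsb ⟨h, hcon.2⟩)
  refine ⟨_, sup_mem (c.QM hq) hgM, hr _ hq, ?_, ?_⟩
  · intro w hw
    by_cases hwt : w = t
    · subst hwt
      simp only [update_self, Pi.sup_apply, step_of_le hat.le, step_of_lt htb, Pi.bot_apply,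
        sup_bot_eq]
      exact sup_eq_left.2 h1
    · rw [update_of_ne hwt]
      rcases hout w (fun h => hwt (hw h)) with h | h
      · simp only [Pi.sup_apply, step_of_lt h, step_of_lt (h.trans hat),
          step_of_lt (h.trans (hat.trans htb)), Pi.bot_apply, sup_bot_eq]
      · simp only [Pi.sup_apply, step_of_le h.le, step_of_le (htb.trans h).le,
          step_of_le (hat.trans (htb.trans h)).le, Pi.bot_apply, sup_bot_eq, sup_eq_right.2 h2]
  · have h4 : ∀ᶠ u in F, u ∈ Ioo a t := hg.left (Ioo_mem_nhdsLT hat)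
    filter_upwards [h4] with u hu w hw
    by_cases hwu : w = u
    · subst hwu
      simp only [Pi.sup_apply, step_of_le hu.1.le, step_of_lt (hu.2.trans htb), Pi.bot_apply,
        sup_bot_eq, step_of_le le_rfl, step_of_lt hu.2, bot_sup_eq]
    · rcases hout w (fun h => hwu (hw h)) with h | h
      · simp only [Pi.sup_apply, step_of_lt h, step_of_lt (h.trans hat),
          step_of_lt (h.trans (hat.trans htb)), Pi.bot_apply, sup_bot_eq, step_of_lt (h.trans hu.1),
          bot_sup_eq]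
      · simp only [Pi.sup_apply, step_of_le h.le, step_of_le (htb.trans h).le,
          step_of_le (hat.trans (htb.trans h)).le, Pi.bot_apply, sup_bot_eq,
          step_of_le (hu.2.trans (htb.trans h)).le, sup_assoc]

lemma tendsto_new_low {t : I} {F : Filter I} (hg : Good c t F) {g : I → I} (hgM : g ∈ Mon)
    (hr : Rob c t F g) (ht : t < ⊤) {v s : I} (hv : v ∈ c.R) (h2 : s ≤ v) :
    Tendsto (fun u => c.φ u (update (step u s ⊔ (step t v ⊔ g)) u ((step t v ⊔ g) u))) F
      (𝓝 (c.φ t (update (step t v ⊔ g) t (g t)))) := by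
  have hh : step t v ⊔ g ∈ Mon := sup_mem (step_mem _ _) hgM
  refine compare hg (G := fun u => update (step u s ⊔ (step t v ⊔ g)) u ((step t v ⊔ g) u))
    (fun u => update_mem hh u s _ le_rfl le_sup_right)
    (update_mem hgM t v _ le_rfl le_sup_right) t (fun _ _ => rfl) ?_
  intro W hW
  obtain ⟨b, hb, htb, hsb⟩ := exists_right (c := c) ht hW
  obtain ⟨a, ha, hat, hsa⟩ := exists_left (c := c) hg.exists_lt hW
  have hq : step b v ⊔ ⊥ ∈ c.Q := c.Qstep _ c.Qbot b hb v hv
  have hout : ∀ w, w ∉ W → w < a ∨ b < w := by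
    intro w hw
    by_contra hcon
    rw [not_or, not_lt, not_lt] at hcon
    rcases le_total w t with h | h
    · exact hw (hsa ⟨hcon.1, h⟩)
    · exact hw (hsb ⟨h, hcon.2⟩)
  refine ⟨_, sup_mem (c.QM hq) hgM, hr _ hq, ?_, ?_⟩
  · intro w hw
    by_cases hwt : w = t
    · subst hwt
      simp only [update_self, Pi.sup_apply, step_of_lt htb, Pi.bot_apply, bot_sup_eq]
    · rw [update_of_ne hwt]
      rcases hout w (fun h => hwt (hw h)) with h | h
      · simp only [Pi.sup_apply, step_of_lt (h.trans hat),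
          step_of_lt (h.trans (hat.trans htb)), Pi.bot_apply, sup_bot_eq]
      · simp only [Pi.sup_apply, step_of_le h.le, step_of_le (htb.trans h).le,
          Pi.bot_apply, sup_bot_eq]
  · have h4 : ∀ᶠ u in F, u ∈ Ioo a t := hg.left (Ioo_mem_nhdsLT hat)
    filter_upwards [h4] with u hu w hw
    by_cases hwu : w = u
    · subst hwu
      simp only [update_self, Pi.sup_apply, step_of_lt (hu.2.trans htb), Pi.bot_apply,
        sup_bot_eq, step_of_lt hu.2]
    · rw [update_of_ne hwu]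
      rcases hout w (fun h => hwu (hw h)) with h | h
      · simp only [Pi.sup_apply, step_of_lt (h.trans hat),
          step_of_lt (h.trans (hat.trans htb)), Pi.bot_apply, sup_bot_eq, step_of_lt (h.trans hu.1),
          bot_sup_eq]
      · simp only [Pi.sup_apply, step_of_le h.le, step_of_le (htb.trans h).le,
          Pi.bot_apply, sup_bot_eq, step_of_le (hu.2.trans (htb.trans h)).le, ← sup_assoc,
          sup_eq_right.2 h2]

end Pool.Agent.MP_36375e_gt

end

-- part MP_36375e_gt.Insert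
section

/-!
The recursive construction: inserting one more jump.
-/

set_option autoImplicit false
set_option linter.unusedSimpArgs false
set_option linter.unusedSectionVars false

open Filter Topology Set unitInterval Function

namespace Pool.Agent.MP_36375e_gt

/-- A node of the construction. -/
structure Node where
  t : I
  v : I
  ε : ℝ
  F : Filter I
  pt : I
  pε : ℝ

noncomputable instance : DecidableEq Node := Classical.decEq _

/-- The step function of a finite set of nodes. -/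
noncomputable def hN (N : Finset Node) : I → I := N.sup fun j => step j.t j.v

lemma hN_insert (j : Node) (N : Finset Node) : hN (insert j N) = step j.t j.v ⊔ hN N :=
  Finset.sup_insert

lemma hN_mem (N : Finset Node) : hN N ∈ Mon := by
  induction N using Finset.induction_on with
  | empty => exact bot_mem
  | insert j N _ ih => rw [hN_insert]; exact sup_mem (step_mem _ _) ih

lemma hN_erase {i : Node} {N : Finset Node} (hi : i ∈ N) :
    hN N = step i.t i.v ⊔ hN (N.erase i) := by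
  rw [← hN_insert, Finset.insert_erase hi]

lemma step_le_hN {i : Node} {N : Finset Node} (hi : i ∈ N) : step i.t i.v ≤ hN N :=
  Finset.le_sup (f := fun j : Node => step j.t j.v) hi

variable {P : Type*} [TopologicalSpace P] (c : Ctx P)

/-- The invariant of the construction. -/
structure Inv (N : Finset Node) : Prop where
  pos : ∀ j ∈ N, 0 < j.ε
  vR : ∀ j ∈ N, j.v ∈ c.R
  lt : ∀ j ∈ N, j.t < ⊤
  good : ∀ j ∈ N, Good c j.t j.F
  sens : ∀ j ∈ N, j.ε < |c.φ j.t (hN N) - c.φ j.t (update (hN N) j.t (hN (N.erase j) j.t))|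
  par : ∀ j ∈ N, j.pε < |c.φ j.t (hN N) - c.φ j.pt (hN N)|
  rob : ∀ j ∈ N, Rob c j.t j.F (hN (N.erase j))
  inj : ∀ j ∈ N, ∀ j' ∈ N, j.t = j'.t → j = j'

variable {c}

lemma tendsto_of_eventually_eq {F : Filter I} (x : I) {G : I → I → I} {G0 : I → I}
    (hG : ∀ᶠ u in F, G u ∈ Mon) (hG0 : G0 ∈ Mon) (h : ∀ w, ∀ᶠ u in F, G u w = G0 w) :
    Tendsto (fun u => c.φ x (G u)) F (𝓝 (c.φ x G0)) := by
  refine (c.cont x G0 hG0).tendsto.comp (tendsto_nhdsWithin_iff.2 ⟨?_, hG⟩)
  rw [tendsto_pi_nhds]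
  intro w
  exact tendsto_const_nhds.congr' ((h w).mono fun u hu => hu.symm)

lemma eventually_absorb {t v s : I} (hs : s ≤ v) {H : I → I} (hH : step t v ≤ H) (w : I) :
    ∀ᶠ u in 𝓝[<] t, (step u s ⊔ H) w = H w := by
  rcases lt_or_ge w t with h | h
  · filter_upwards [Ioo_mem_nhdsLT h] with u hu
    rw [Pi.sup_apply, step_of_lt hu.1, bot_sup_eq]
  · refine Eventually.of_forall fun u => ?_
    rw [Pi.sup_apply, sup_eq_right]
    have := hH w
    rw [step_of_le h] at this
    exact (step_le _ _ _).trans (hs.trans this)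

lemma exists_value {f : I → ℝ} {a v : I} (hav : a ≤ v) (hf : ContinuousOn f (Icc a v)) {ε : ℝ}
    (hε : 0 < ε) (h : ε < |f v - f a|) :
    ∃ s ∈ c.R, a ≤ s ∧ s ≤ v ∧ f s ≠ f a ∧ ε < |f v - f s| := by
  have hc : ContinuousOn (fun s => |f s - f a|) (Icc a v) := (hf.sub continuousOn_const).abs
  set δ := min ε (|f v - f a| - ε) with hδ
  have hδ0 : 0 < δ := lt_min hε (by linarith)
  have hδ1 : δ ≤ ε := min_le_left _ _
  have hδ2 : δ ≤ |f v - f a| - ε := min_le_right _ _
  have hmem : δ / 2 ∈ Ioo (|f a - f a|) (|f v - f a|) := by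
    simp only [sub_self, abs_zero, mem_Ioo]
    constructor <;> linarith
  obtain ⟨s0, hs0, hs0'⟩ := intermediate_value_Ioo hav hc hmem
  have hca : ContinuousAt (fun s => |f s - f a|) s0 :=
    hc.continuousAt (Icc_mem_nhds hs0.1 hs0.2)
  have h1 : ∀ᶠ s in 𝓝 s0, |f s - f a| ∈ Ioo 0 δ := by
    apply hca.eventually_mem
    have hs0'' : |f s0 - f a| = δ / 2 := hs0'
    rw [hs0'']
    exact Ioo_mem_nhds (by linarith) (by linarith)
  have h2 : ∀ᶠ s in 𝓝 s0, s ∈ Ioo a v := Ioo_mem_nhds hs0.1 hs0.2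
  obtain ⟨s, hs, hsR⟩ := c.Rd.inter_nhds_nonempty (h1.and h2)
  refine ⟨s, hs, hsR.2.1.le, hsR.2.2.le, ?_, ?_⟩
  · intro h3
    have := hsR.1.1
    rw [h3, sub_self, abs_zero] at this
    exact lt_irrefl _ this
  · have h3 := hsR.1.2
    have h4 : |f v - f a| ≤ |f v - f s| + |f s - f a| := abs_sub_le _ _ _
    linarith

lemma insertion [SecondCountableTopology P] {N : Finset Node} (hI : Inv c N) {i : Node}
    (hi : i ∈ N) {U : Set P} (hU : U ∈ 𝓝 (c.ξ i.t)) :
    ∃ j : Node, Inv c (insert j N) ∧ c.ξ j.t ∈ U ∧ j.pt = i.t ∧ j.pε = i.ε := by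
  have hgood := hI.good i hi
  have hne := hgood.ne
  set g := hN (N.erase i) with hg
  have hgM : g ∈ Mon := hN_mem _
  have hh : hN N = step i.t i.v ⊔ g := hN_erase hi
  have hM : hN N ∈ Mon := hN_mem N
  let f : I → ℝ := fun s => c.φ i.t (update (hN N) i.t s)
  have hfv : f (hN N i.t) = c.φ i.t (hN N) := by simp only [f, update_eq_self]
  have hsens : i.ε < |f (hN N i.t) - f (g i.t)| := by
    rw [hfv]
    exact hI.sens i hi
  have hle : g i.t ≤ hN N i.t := by rw [hh]; exact le_sup_right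
  have hval : hN N i.t = i.v := by
    have h1 : hN N i.t = i.v ⊔ g i.t := by rw [hh, Pi.sup_apply, step_of_le le_rfl]
    rcases le_total i.v (g i.t) with h | h
    · rw [h1, sup_eq_right.2 h, sub_self, abs_zero] at hsens
      exact (lt_asymm hsens (hI.pos i hi)).elim
    · rw [h1, sup_eq_left.2 h]
  have hupd : ∀ s, g i.t ≤ s → s ≤ i.v → update (hN N) i.t s ∈ Mon := by
    intro s h1 h2
    rw [hh]
    refine update_mem hgM _ _ _ h1 ?_
    rw [← hh, hval]
    exact h2
  have hcu : Continuous (fun s : I => update (hN N) i.t s) := by fun_prop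
  have hfc : ContinuousOn f (Icc (g i.t) i.v) :=
    (c.cont i.t).comp hcu.continuousOn fun s hs => hupd s hs.1 hs.2
  rw [hval] at hsens hle hfv
  obtain ⟨s, hsR, hs1, hs2, hs3, hs4⟩ := exists_value (c := c) hle hfc (hI.pos i hi) hsens
  have hγ : 0 < |f s - f (g i.t)| := abs_pos.2 (sub_ne_zero.2 hs3)
  have hnewM : ∀ u, step u s ⊔ hN N ∈ Mon := fun u => sup_mem (step_mem _ _) hM
  have T1 : ∀ x, Tendsto (fun u => c.φ x (step u s ⊔ hN N)) i.F (𝓝 (c.φ x (hN N))) := fun x =>
    tendsto_of_eventually_eq x (Eventually.of_forall hnewM) hM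
      fun w => hgood.left (eventually_absorb hs2 (step_le_hN hi) w)
  have T4 : Tendsto (fun u => c.φ u (step u s ⊔ hN N)) i.F (𝓝 (f s)) := by
    have := tendsto_new hgood hgM (hI.rob i hi) (hI.lt i hi) (hI.vR i hi) hsR hs1 hs2
    rwa [← hh] at this
  have T5 : Tendsto (fun u => c.φ u (update (step u s ⊔ hN N) u (hN N u))) i.F
      (𝓝 (f (g i.t))) := by
    have := tendsto_new_low hgood hgM (hI.rob i hi) (hI.lt i hi) (hI.vR i hi) hs2
    rwa [← hh] at this
  have hupd2 : ∀ j ∈ N, ∀ u, update (step u s ⊔ hN N) j.t ((step u s ⊔ hN (N.erase j)) j.t)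
      ∈ Mon := by
    intro j hj u
    rw [hN_erase hj, sup_left_comm]
    exact update_mem (sup_mem (step_mem _ _) (hN_mem _)) _ _ _ le_rfl le_sup_right
  have E1 : ∀ j ∈ N, ∀ᶠ u in i.F, j.ε < |c.φ j.t (step u s ⊔ hN N) -
      c.φ j.t (update (step u s ⊔ hN N) j.t ((step u s ⊔ hN (N.erase j)) j.t))| := by
    intro j hj
    by_cases hji : j = i
    · subst hji
      have T3 : Tendsto (fun u => c.φ j.t (update (step u s ⊔ hN N) j.t
          ((step u s ⊔ hN (N.erase j)) j.t))) j.F (𝓝 (f s)) := by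
        refine tendsto_of_eventually_eq j.t (Eventually.of_forall (hupd2 j hj)) (hupd s hs1 hs2) ?_
        intro w
        by_cases hw : w = j.t
        · subst hw
          have h1 : ∀ᶠ u in j.F, u < j.t := hgood.left self_mem_nhdsWithin
          filter_upwards [h1] with u hu
          rw [update_self, update_self, Pi.sup_apply, step_of_le hu.le]
          exact sup_eq_left.2 hs1
        · filter_upwards [hgood.left (eventually_absorb hs2 (step_le_hN hj) w)] with u hu
          rw [update_of_ne hw, update_of_ne hw]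
          exact hu
      have := ((T1 j.t).sub T3).abs
      rw [← hfv] at this
      exact this.eventually (lt_mem_nhds hs4)
    · have hij : i ∈ N.erase j := Finset.mem_erase.2 ⟨fun h => hji h.symm, hi⟩
      have T2 : Tendsto (fun u => c.φ j.t (update (step u s ⊔ hN N) j.t
          ((step u s ⊔ hN (N.erase j)) j.t))) i.F
          (𝓝 (c.φ j.t (update (hN N) j.t (hN (N.erase j) j.t)))) := by
        refine tendsto_of_eventually_eq j.t (Eventually.of_forall (hupd2 j hj)) ?_ ?_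
        · rw [hN_erase hj]
          exact update_mem (hN_mem _) _ _ _ le_rfl le_sup_right
        · intro w
          by_cases hw : w = j.t
          · subst hw
            filter_upwards [hgood.left (eventually_absorb hs2 (step_le_hN hij) j.t)] with u hu
            rw [update_self, update_self]
            exact hu
          · filter_upwards [hgood.left (eventually_absorb hs2 (step_le_hN hi) w)] with u hu
            rw [update_of_ne hw, update_of_ne hw]
            exact hu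
      exact ((T1 j.t).sub T2).abs.eventually (lt_mem_nhds (hI.sens j hj))
  have E2 : ∀ j ∈ N, ∀ᶠ u in i.F,
      j.pε < |c.φ j.t (step u s ⊔ hN N) - c.φ j.pt (step u s ⊔ hN N)| := fun j hj =>
    ((T1 j.t).sub (T1 j.pt)).abs.eventually (lt_mem_nhds (hI.par j hj))
  have E3 : ∀ j ∈ N, ∀ᶠ u in i.F, u ≠ j.t ∧ ∀ k, u ∉ c.E j.t k := by
    intro j _
    have h1 := hgood.coc ({j.t} ∪ ⋃ k, (c.E j.t k : Set I))
      ((countable_singleton _).union (countable_iUnion fun k => (c.E j.t k).countable_toSet))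
    filter_upwards [h1] with u hu
    simp only [mem_union, mem_singleton_iff, mem_iUnion, Finset.mem_coe, not_or, not_exists] at hu
    exact hu
  have E4 : ∀ᶠ u in i.F, |f s - f (g i.t)| / 2 <
      |c.φ u (step u s ⊔ hN N) - c.φ u (update (step u s ⊔ hN N) u (hN N u))| :=
    (T4.sub T5).abs.eventually (lt_mem_nhds (by linarith))
  have E5 : ∀ᶠ u in i.F, i.ε < |c.φ u (step u s ⊔ hN N) - c.φ i.t (step u s ⊔ hN N)| := by
    refine (T4.sub (T1 i.t)).abs.eventually (lt_mem_nhds ?_)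
    rw [← hfv, abs_sub_comm]
    exact hs4
  have E6 := hgood.coc _ (generic c (hN N))
  have E7 : ∀ᶠ u in i.F, c.ξ u ∈ U := hgood.xi hU
  have E8 : ∀ᶠ u in i.F, u < i.t := hgood.left self_mem_nhdsWithin
  obtain ⟨u, e1, e2, e3, e4, e5, e6, e7, e8⟩ := (((Finset.eventually_all N).2 E1).and
    (((Finset.eventually_all N).2 E2).and (((Finset.eventually_all N).2 E3).and
    (E4.and (E5.and (E6.and (E7.and E8))))))).exists
  simp only [mem_ofPred_eq, not_not] at e6
  obtain ⟨F', hF1, hF2⟩ := e6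
  let n : Node := ⟨u, s, |f s - f (g i.t)| / 2, F', i.t, i.ε⟩
  have hnN : n ∉ N := fun h => (e3 n h).1 rfl
  have hins : hN (insert n N) = step u s ⊔ hN N := hN_insert n N
  have her : ∀ j ∈ N, hN ((insert n N).erase j) = step u s ⊔ hN (N.erase j) := by
    intro j hj
    have : n ≠ j := fun h => hnN (h ▸ hj)
    rw [Finset.erase_insert_of_ne this, hN_insert]
  have hern : (insert n N).erase n = N := Finset.erase_insert hnN
  refine ⟨n, ⟨?_, ?_, ?_, ?_, ?_, ?_, ?_, ?_⟩, e7, rfl, rfl⟩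
  · rw [Finset.forall_mem_insert]
    exact ⟨half_pos hγ, hI.pos⟩
  · rw [Finset.forall_mem_insert]
    exact ⟨hsR, hI.vR⟩
  · rw [Finset.forall_mem_insert]
    exact ⟨e8.trans (hI.lt i hi), hI.lt⟩
  · rw [Finset.forall_mem_insert]
    exact ⟨hF1, hI.good⟩
  · rw [Finset.forall_mem_insert, hern, hins]
    refine ⟨e4, fun j hj => ?_⟩
    rw [her j hj]
    exact e1 j hj
  · rw [Finset.forall_mem_insert, hins]
    exact ⟨e5, e2⟩
  · rw [Finset.forall_mem_insert, hern]
    refine ⟨hF2, fun j hj => ?_⟩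
    rw [her j hj]
    exact rob_step (hI.good j hj) (hN_mem _) (hI.rob j hj) (e3 j hj).1 (e8.trans (hI.lt i hi))
      (e3 j hj).2 hsR
  · intro j hj j' hj' hjj
    rcases Finset.mem_insert.1 hj with rfl | hj1
    · rcases Finset.mem_insert.1 hj' with rfl | hj2
      · rfl
      · exact ((e3 j' hj2).1 hjj).elim
    · rcases Finset.mem_insert.1 hj' with rfl | hj2
      · exact ((e3 j hj1).1 hjj.symm).elim
      · exact hI.inj j hj1 j' hj2 hjj

end Pool.Agent.MP_36375e_gt

end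

-- part MP_36375e_gt.Limit
section

/-!
The limit of the construction and the main theorem in raw form.
-/

set_option autoImplicit false
set_option linter.unusedSimpArgs false
set_option linter.unusedSectionVars false

open Filter Topology Set unitInterval Function

namespace Pool.Agent.MP_36375e_gt

variable {P : Type*} [TopologicalSpace P] [SecondCountableTopology P] {c : Ctx P}

lemma insertion_all {N : Finset Node} (hI : Inv c N) (U : Node → Set P)
    (hU : ∀ i, U i ∈ 𝓝 (c.ξ i.t)) (T : Finset Node) (hT : T ⊆ N) :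
    ∃ N', N ⊆ N' ∧ Inv c N' ∧ ∀ i ∈ T, ∃ j ∈ N', c.ξ j.t ∈ U i ∧ j.pt = i.t ∧ j.pε = i.ε := by
  induction T using Finset.induction_on with
  | empty => exact ⟨N, subset_rfl, hI, fun i hi => (Finset.notMem_empty i hi).elim⟩
  | insert i T _ ih =>
    obtain ⟨N', h1, h2, h3⟩ := ih ((Finset.subset_insert i T).trans hT)
    obtain ⟨j, hj1, hj2⟩ := insertion h2 (h1 (hT (Finset.mem_insert_self i T))) (hU i)
    refine ⟨insert j N', h1.trans (Finset.subset_insert _ _), hj1, ?_⟩
    rw [Finset.forall_mem_insert]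
    refine ⟨⟨j, Finset.mem_insert_self _ _, hj2⟩, fun i' hi' => ?_⟩
    obtain ⟨j', hj', h4⟩ := h3 i' hi'
    exact ⟨j', Finset.mem_insert_of_mem hj', h4⟩

lemma exists_start
    (hs : ∀ t, c.φ t (step t ⊤) ≠ c.φ t (update (step t ⊤) t ⊥)) :
    ∃ i : Node, Inv c {i} := by
  have hunc : ¬ (univ : Set I).Countable := by
    intro h
    have h1 : (Icc (0:ℝ) 1).Countable := by
      have := h.image ((↑) : I → ℝ)
      rwa [image_univ, Subtype.range_coe] at this
    have h2 := Cardinal.mk_Icc_real (show (0:ℝ) < 1 by norm_num)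
    rw [← Cardinal.le_aleph0_iff_set_countable, h2] at h1
    exact Cardinal.aleph0_lt_continuum.not_ge h1
  have h1 := (generic c ⊥).union (countable_singleton (⊤ : I))
  obtain ⟨t, ht⟩ : ∃ t, t ∉ ({t | ¬ ∃ F, Good c t F ∧ Rob c t F ⊥} ∪ {⊤}) := by
    by_contra hcon
    apply hunc
    refine h1.mono fun t _ => ?_
    by_contra h
    exact hcon ⟨t, h⟩
  simp only [mem_union, mem_ofPred_eq, mem_singleton_iff, not_or, not_not] at ht
  obtain ⟨⟨F, hF1, hF2⟩, ht2⟩ := ht
  have hγ : 0 < |c.φ t (step t ⊤) - c.φ t (update (step t ⊤) t ⊥)| :=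
    abs_pos.2 (sub_ne_zero.2 (hs t))
  let i : Node := ⟨t, ⊤, |c.φ t (step t ⊤) - c.φ t (update (step t ⊤) t ⊥)| / 2, F, t, -1⟩
  have e1 : hN {i} = step t ⊤ := Finset.sup_singleton
  have e2 : hN (({i} : Finset Node).erase i) = ⊥ := by
    rw [Finset.erase_singleton]
    rfl
  refine ⟨i, ?_, ?_, ?_, ?_, ?_, ?_, ?_, ?_⟩
  · intro j hj
    rw [Finset.mem_singleton.1 hj]
    exact half_pos hγ
  · intro j hj
    rw [Finset.mem_singleton.1 hj]
    exact c.Rtop
  · intro j hj
    rw [Finset.mem_singleton.1 hj]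
    exact lt_top_iff_ne_top.2 ht2
  · intro j hj
    rw [Finset.mem_singleton.1 hj]
    exact hF1
  · intro j hj
    rw [Finset.mem_singleton.1 hj, e1, e2]
    exact half_lt_self hγ
  · intro j hj
    rw [Finset.mem_singleton.1 hj]
    exact lt_of_lt_of_le (show (-1:ℝ) < 0 by norm_num) (abs_nonneg _)
  · intro j hj
    rw [Finset.mem_singleton.1 hj, e2]
    exact hF2
  · intro j hj j' hj' _
    rw [Finset.mem_singleton.1 hj, Finset.mem_singleton.1 hj']

lemma exists_limit
    (hs : ∀ t, c.φ t (step t ⊤) ≠ c.φ t (update (step t ⊤) t ⊥)) :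
    ∃ h ∈ Mon, ∃ T : Set I, T.Nonempty ∧ ∀ t ∈ T, ∃ ε : ℝ, 0 < ε ∧ ∀ U ∈ 𝓝 (c.ξ t),
      ∃ u ∈ T, c.ξ u ∈ U ∧ ε ≤ |c.φ u h - c.φ t h| := by
  obtain ⟨i0, hi0⟩ := exists_start hs
  have hb : ∀ x : P, ∃ B : ℕ → Set P, (𝓝 x).HasAntitoneBasis B := fun x =>
    (𝓝 x).exists_antitone_basis
  choose B hB using hb
  have hstep : ∀ (n : ℕ) (S : {N : Finset Node // Inv c N}), ∃ S' : {N : Finset Node // Inv c N},
      S.1 ⊆ S'.1 ∧ ∀ i ∈ S.1, ∃ j ∈ S'.1, c.ξ j.t ∈ B (c.ξ i.t) n ∧ j.pt = i.t ∧ j.pε = i.ε := by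
    intro n S
    obtain ⟨N', h1, h2, h3⟩ := insertion_all S.2 (fun i => B (c.ξ i.t) n)
      (fun i => (hB _).mem n) S.1 subset_rfl
    exact ⟨⟨N', h2⟩, h1, h3⟩
  choose nx hnx1 hnx2 using hstep
  let S : ℕ → {N : Finset Node // Inv c N} := fun n => Nat.rec ⟨{i0}, hi0⟩ nx n
  have hS : ∀ n, S (n + 1) = nx n (S n) := fun n => rfl
  have hmono : Monotone fun n => (S n).1 :=
    monotone_nat_of_le_succ fun n => by
      rw [hS]
      exact hnx1 n (S n)
  obtain ⟨h, hhM, hlim⟩ := isCompact_Mon.ultrafilter_le_nhds'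
    ((hyperfilter ℕ).map fun n => hN (S n).1)
    (by
      rw [Ultrafilter.mem_map]
      exact univ_mem' fun n => hN_mem _)
  have hlim' : Tendsto (fun n => hN (S n).1) (hyperfilter ℕ) (𝓝[Mon] h) :=
    tendsto_nhdsWithin_iff.2 ⟨hlim, Eventually.of_forall fun n => hN_mem _⟩
  have hφ : ∀ t, Tendsto (fun n => c.φ t (hN (S n).1)) (hyperfilter ℕ) (𝓝 (c.φ t h)) :=
    fun t => (c.cont t h hhM).tendsto.comp hlim'
  have hpar : ∀ m, ∀ j ∈ (S m).1, j.pε ≤ |c.φ j.t h - c.φ j.pt h| := by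
    intro m j hj
    refine ge_of_tendsto ((hφ j.t).sub (hφ j.pt)).abs ?_
    have h1 : ∀ᶠ n in (hyperfilter ℕ : Filter ℕ), m ≤ n :=
      Nat.hyperfilter_le_atTop (eventually_ge_atTop m)
    filter_upwards [h1] with n hn
    exact ((S n).2.par j (hmono hn hj)).le
  refine ⟨h, hhM, {t | ∃ m, ∃ j ∈ (S m).1, j.t = t},
    ⟨i0.t, 0, i0, Finset.mem_singleton_self _, rfl⟩, ?_⟩
  rintro _ ⟨m, i, hi, rfl⟩
  refine ⟨i.ε, (S m).2.pos i hi, fun U hU => ?_⟩
  obtain ⟨n, hn1, hn2⟩ := (((hB _).eventually_subset hU).and (eventually_ge_atTop m)).exists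
  obtain ⟨j, hj, h1, h2, h3⟩ := hnx2 n (S n) i (hmono hn2 hi)
  refine ⟨j.t, ⟨n + 1, j, hj, rfl⟩, hn1 h1, ?_⟩
  have := hpar (n + 1) j hj
  rwa [h2, h3] at this

/-- Raw form of the main theorem. -/
theorem not_scattered (ψ : P → (I → I) → ℝ) (hc : ∀ x, ContinuousOn (ψ x) Mon)
    (hinj : ∀ f ∈ Mon, ∀ g ∈ Mon, (∀ x, ψ x f = ψ x g) → f = g) :
    ∃ h ∈ Mon, ∃ A : Set P, A.Nonempty ∧
      ∀ x ∈ A, ¬ ContinuousWithinAt (fun y => ψ y h) A x := by
  have h1 : ∀ t : I, ∃ x, ψ x (step t ⊤) ≠ ψ x (update (step t ⊤) t ⊥) := by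
    intro t
    by_contra hcon
    have hm : update (step t ⊤) t ⊥ ∈ Mon := by
      have := update_mem bot_mem t ⊤ ⊥ le_rfl bot_le
      rwa [sup_bot_eq] at this
    have h2 := hinj _ (step_mem t ⊤) _ hm fun x => by
      by_contra h
      exact hcon ⟨x, h⟩
    have h3 := congrFun h2 t
    rw [update_self, step_of_le le_rfl] at h3
    exact top_ne_bot h3
  choose ξ hξ using h1
  have h2 : ∀ (t : I) (k : ℕ), ∃ E : Finset I, ∀ f ∈ Mon, ∀ g ∈ Mon, (∀ u ∈ E, f u = g u) →
      |ψ (ξ t) f - ψ (ξ t) g| < 1 / ((k:ℝ) + 1) := fun t k =>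
    exists_finset_insens isCompact_Mon (hc (ξ t)) Nat.one_div_pos_of_nat
  choose E hE using h2
  obtain ⟨R0, hR0c, hR0d⟩ := TopologicalSpace.exists_countable_dense I
  have hRc : (insert ⊤ R0).Countable := hR0c.insert ⊤
  have := hRc.to_subtype
  let R : Set I := insert ⊤ R0
  let q : List (R × R) → I → I := fun L => L.foldr (fun p f => step p.1 p.2 ⊔ f) ⊥
  have hq : ∀ L, q L ∈ Mon := by
    intro L
    induction L with
    | nil => exact bot_mem
    | cons p L ih => exact sup_mem (step_mem _ _) ih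
  let c : Ctx P :=
    { φ := fun t => ψ (ξ t)
      ξ := ξ
      cont := fun t => hc (ξ t)
      E := E
      hE := hE
      R := R
      Rd := hR0d.mono (subset_insert _ _)
      Rtop := mem_insert _ _
      Q := range q
      Qc := countable_range q
      QM := range_subset_iff.2 hq
      Qbot := ⟨[], rfl⟩
      Qstep := by
        rintro _ ⟨L, rfl⟩ r hr v hv
        exact ⟨(⟨r, hr⟩, ⟨v, hv⟩) :: L, rfl⟩ }
  obtain ⟨h, hhM, T, hT, hT'⟩ := exists_limit (c := c) hξ
  refine ⟨h, hhM, ξ '' T, hT.image ξ, ?_⟩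
  rintro _ ⟨t, ht, rfl⟩ hcont
  obtain ⟨ε, hε, h3⟩ := hT' t ht
  have h4 := Metric.tendsto_nhds.1 hcont ε hε
  obtain ⟨U, hU, hUs⟩ := mem_nhdsWithin_iff_exists_mem_nhds_inter.1 h4
  obtain ⟨u, hu, h5, h6⟩ := h3 U hU
  have h7 : dist (ψ (ξ u) h) (ψ (ξ t) h) < ε := hUs ⟨h5, mem_image_of_mem ξ hu⟩
  rw [Real.dist_eq] at h7
  exact h7.not_ge h6

end Pool.Agent.MP_36375e_gt

end
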